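import Mathlib

/-!
# Row and column balance in a class of Butson matrices
-/

set_option autoImplicit false

open Finset Matrix

namespace Pool.Agent.Q3.Butson

/-! ### definitions -/

section defs
variable {n : ℕ}

/-- `H` is a Butson matrix `BH(m, n)`: all entries are `m`-th roots of unity and `H H^* = n I` -/
def IsButson (m : ℕ) (H : Matrix (Fin n) (Fin n) ℂ) : Prop :=
  (∀ i j, H i j ^ m = 1) ∧ H * Hᴴ = (n : ℂ) • (1 : Matrix (Fin n) (Fin n) ℂ)

/-- `K` arises from `H` by permuting the rows and the columns and multiplying each row and each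
column by an `m`-th root of unity -/
def Equivalent (m : ℕ) (H K : Matrix (Fin n) (Fin n) ℂ) : Prop :=
  ∃ (σ τ : Equiv.Perm (Fin n)) (u v : Fin n → ℂ), (∀ i, u i ^ m = 1) ∧ (∀ j, v j ^ m = 1) ∧
    ∀ i j, K i j = u i * v j * H (σ i) (τ j)

/-- all entries of the first row and of the first column are `1` -/
def Normalised [NeZero n] (H : Matrix (Fin n) (Fin n) ℂ) : Prop :=
  (∀ j, H 0 j = 1) ∧ ∀ i, H i 0 = 1

/-- each `m`-th root of unity occurs the same number of times in every row but the first -/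
def RowBalanced [NeZero n] (m : ℕ) (H : Matrix (Fin n) (Fin n) ℂ) : Prop :=
  ∀ i : Fin n, i ≠ 0 → ∀ z w : ℂ, z ^ m = 1 → w ^ m = 1 →
    Set.ncard {j | H i j = z} = Set.ncard {j | H i j = w}

/-- each `m`-th root of unity occurs the same number of times in every column but the first -/
def ColBalanced [NeZero n] (m : ℕ) (H : Matrix (Fin n) (Fin n) ℂ) : Prop :=
  ∀ j : Fin n, j ≠ 0 → ∀ z w : ℂ, z ^ m = 1 → w ^ m = 1 →
    Set.ncard {i | H i j = z} = Set.ncard {i | H i j = w}

end defs

/-! ### the two matrices of order sixteen (exponents of `i`) -/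

/-- a table -/
def Gt : List (List ℕ) :=
  [[0,0,0,0,0,0,0,0,0,0,0,0,0,0,0,0],
   [0,0,0,0,1,3,1,3,2,2,2,2,3,1,1,3],
   [0,0,0,0,2,2,2,2,3,3,1,1,1,3,3,1],
   [0,0,0,0,3,1,3,1,1,1,3,3,2,2,2,2],
   [0,1,2,3,0,3,2,1,0,1,2,1,0,3,2,3],
   [0,3,2,1,3,2,1,0,2,1,2,3,1,0,3,0],
   [0,1,2,3,2,1,0,3,3,2,3,0,1,0,1,2],
   [0,3,2,1,1,0,3,2,3,0,1,0,2,1,2,3],
   [0,2,3,1,0,2,3,3,0,2,1,3,0,2,1,1],
   [0,2,3,1,1,1,2,0,2,0,3,1,3,3,0,2],
   [0,2,1,3,2,2,3,1,1,3,2,0,3,1,0,0],
   [0,2,1,3,1,3,0,0,3,1,0,2,2,2,3,1],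
   [0,3,1,2,0,1,1,2,0,3,3,2,0,1,3,2],
   [0,1,3,2,3,0,0,1,2,3,1,2,1,2,0,3],
   [0,1,3,2,2,3,1,2,1,0,0,3,3,0,2,1],
   [0,3,1,2,3,0,2,3,1,2,0,1,2,3,1,0]]

/-- a table -/
def Qt : List (List ℕ) :=
  [[0,0,0,0,0,0,0,0,0,0,0,0,0,0,0,0],
   [0,0,2,3,2,2,1,1,1,3,3,0,3,2,1,0],
   [0,2,3,0,2,1,2,1,3,1,0,3,3,1,0,2],
   [0,3,0,2,1,2,2,3,1,1,3,3,0,0,2,1],
   [0,0,1,1,2,0,2,2,1,3,1,2,3,0,3,3],
   [0,1,1,0,0,2,2,1,3,2,2,3,1,3,3,0],
   [0,1,0,1,2,2,0,3,2,1,3,1,2,3,0,3],
   [0,0,2,2,3,0,3,1,0,1,3,2,1,3,1,2],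
   [0,2,2,0,0,3,3,0,1,1,2,1,3,1,2,3],
   [0,2,0,2,3,3,0,1,1,0,1,3,2,2,3,1],
   [0,0,3,1,3,0,1,3,3,2,2,0,2,1,2,1],
   [0,3,1,0,0,1,3,3,2,3,0,2,2,2,1,1],
   [0,1,0,3,1,3,0,2,3,3,2,2,0,1,1,2],
   [0,2,2,3,2,1,0,3,0,2,1,1,0,3,3,1],
   [0,2,3,2,1,0,2,0,2,3,1,0,1,3,1,3],
   [0,3,2,2,0,2,1,2,3,0,0,1,1,1,3,3]]

/-- the exponents of a Butson matrix from bent functions -/
def G (a c : Fin 16) : ZMod 4 := (((Gt.getD a []).getD c 0 : ℕ) : ZMod 4)

/-- the exponents of a row balanced Butson matrix -/
def Q (a c : Fin 16) : ZMod 4 := (((Qt.getD a []).getD c 0 : ℕ) : ZMod 4)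

theorem G_row0 : ∀ c, G 0 c = 0 := by decide +kernel
theorem G_col0 : ∀ a, G a 0 = 0 := by decide +kernel
theorem Q_row0 : ∀ c, Q 0 c = 0 := by decide +kernel
theorem Q_col0 : ∀ a, Q a 0 = 0 := by decide +kernel
theorem G_row : ∀ a, a ≠ 0 → ∀ z : ZMod 4, (univ.filter fun c => G a c = z).card = 4 := by
  decide +kernel
theorem Q_row : ∀ a, a ≠ 0 → ∀ z : ZMod 4, (univ.filter fun c => Q a c = z).card = 4 := by
  decide +kernel
theorem G_col : ∀ c, c ≠ 0 → ∀ z : ZMod 4, (univ.filter fun a => G a c = z).card = 4 := by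
  decide +kernel
theorem G_orth : ∀ a a', a ≠ a' →
    (univ.filter fun c => G a c - G a' c = 0).card =
      (univ.filter fun c => G a c - G a' c = 2).card ∧
    (univ.filter fun c => G a c - G a' c = 1).card =
      (univ.filter fun c => G a c - G a' c = 3).card := by
  decide +kernel
theorem Q_orth : ∀ a a', a ≠ a' →
    (univ.filter fun c => Q a c - Q a' c = 0).card =
      (univ.filter fun c => Q a c - Q a' c = 2).card ∧
    (univ.filter fun c => Q a c - Q a' c = 1).card =
      (univ.filter fun c => Q a c - Q a' c = 3).card := by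
  decide +kernel
theorem G_bad : ∀ z : ZMod 4, (univ.filter fun c => G 1 c - G 4 c = z).card = 4 := by
  decide +kernel
theorem Q_bad0 : (univ.filter fun c => Q 1 c - Q 4 c = 0).card = 6 := by decide +kernel
theorem Q_bad1 : (univ.filter fun c => Q 1 c - Q 4 c = 1).card = 2 := by decide +kernel

/-! ### the characters -/

/-- `i ^ e` -/
noncomputable def chi (e : ZMod 4) : ℂ := Complex.I ^ e.val

theorem chi_zero : chi 0 = 1 := by simp [chi]
theorem chi_one : chi 1 = Complex.I := by
  have : (1 : ZMod 4).val = 1 := rfl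
  simp [chi, this]
theorem chi_two : chi 2 = -1 := by
  have : (2 : ZMod 4).val = 2 := rfl
  simp [chi, this]
theorem chi_three : chi 3 = -Complex.I := by
  have : (3 : ZMod 4).val = 3 := rfl
  rw [chi, this, pow_succ, Complex.I_sq]
  ring

theorem four_cases : ∀ a : ZMod 4, a = 0 ∨ a = 1 ∨ a = 2 ∨ a = 3 := by decide

theorem chi_add (a b : ZMod 4) : chi (a + b) = chi a * chi b := by
  unfold chi
  rw [← pow_add, ZMod.val_add]
  have h := Nat.div_add_mod (a.val + b.val) 4
  conv_rhs => rw [← h, pow_add, pow_mul, Complex.I_pow_four, one_pow, one_mul]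

theorem chi_pow (a : ZMod 4) : chi a ^ 4 = 1 := by
  unfold chi
  rw [← pow_mul, mul_comm, pow_mul, Complex.I_pow_four, one_pow]

theorem star_chi (a : ZMod 4) : star (chi a) = chi (-a) := by
  rcases four_cases a with h | h | h | h <;> subst h
  · simp [chi_zero]
  · rw [show (-1 : ZMod 4) = 3 by decide, chi_one, chi_three]; simp
  · rw [show (-2 : ZMod 4) = 2 by decide, chi_two]; simp
  · rw [show (-3 : ZMod 4) = 1 by decide, chi_one, chi_three]; simp

theorem chi_eq_one {a : ZMod 4} (h : chi a = 1) : a = 0 := by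
  rcases four_cases a with h' | h' | h' | h' <;> subst h'
  · rfl
  · rw [chi_one] at h
    have := congrArg Complex.re h
    simp at this
  · rw [chi_two] at h
    have := congrArg Complex.re h
    norm_num at this
  · rw [chi_three] at h
    have := congrArg Complex.re h
    simp at this

theorem chi_inj {a b : ZMod 4} : chi a = chi b ↔ a = b := by
  constructor
  · intro h
    have h1 : chi (a - b) = 1 := by
      rw [sub_eq_add_neg, chi_add, h, ← chi_add, add_neg_cancel, chi_zero]
    exact sub_eq_zero.1 (chi_eq_one h1)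
  · rintro rfl; rfl

theorem chi_surj {z : ℂ} (h : z ^ 4 = 1) : ∃ a, chi a = z := by
  have h1 : (z - 1) * (z + 1) * ((z - Complex.I) * (z + Complex.I)) = 0 := by
    linear_combination h - (z ^ 2 - 1) * Complex.I_sq
  rcases mul_eq_zero.1 h1 with h2 | h2 <;> rcases mul_eq_zero.1 h2 with h3 | h3
  · exact ⟨0, by rw [chi_zero]; linear_combination -h3⟩
  · exact ⟨2, by rw [chi_two]; linear_combination -h3⟩
  · exact ⟨1, by rw [chi_one]; linear_combination -h3⟩
  · exact ⟨3, by rw [chi_three]; linear_combination -h3⟩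

theorem sum_chi (f : Fin 16 → ZMod 4)
    (h : (univ.filter fun c => f c = 0).card = (univ.filter fun c => f c = 2).card ∧
      (univ.filter fun c => f c = 1).card = (univ.filter fun c => f c = 3).card) :
    ∑ c, chi (f c) = 0 := by
  have h1 : ∑ c, chi (f c) = ∑ z : ZMod 4, ((univ.filter fun c => f c = z).card : ℂ) * chi z := by
    rw [← Finset.sum_fiberwise (s := univ) (g := f) (f := fun c => chi (f c))]
    apply Finset.sum_congr rfl
    intro z _
    rw [Finset.sum_congr rfl (g := fun _ => chi z) (fun c hc => by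
      rw [(Finset.mem_filter.1 hc).2]), Finset.sum_const, nsmul_eq_mul]
  have h2 : (univ : Finset (ZMod 4)) = {0, 1, 2, 3} := by decide
  rw [h1, h2]
  rw [Finset.sum_insert (by decide), Finset.sum_insert (by decide), Finset.sum_insert (by decide),
    Finset.sum_singleton, h.1, h.2, chi_zero, chi_one, chi_two, chi_three]
  ring

theorem inner_G (b b' : Fin 16) : ∑ d, chi (G b d - G b' d) = if b = b' then 16 else 0 := by
  split_ifs with h
  · subst h; simp [chi_zero]
  · exact sum_chi _ (G_orth b b' h)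

theorem inner_Q (b b' : Fin 16) : ∑ d, chi (Q b d - Q b' d) = if b = b' then 16 else 0 := by
  split_ifs with h
  · subst h; simp [chi_zero]
  · exact sum_chi _ (Q_orth b b' h)

/-! ### the matrix of order 256 -/

/-- the inner matrices -/
def R (c b d : Fin 16) : ZMod 4 := if c = 0 then G b d else Q b d

theorem inner_R (c b b' : Fin 16) : ∑ d, chi (R c b d - R c b' d) = if b = b' then 16 else 0 := by
  unfold R
  by_cases h : c = 0
  · simp only [h, if_true]; exact inner_G b b'
  · simp only [h, if_false]; exact inner_Q b b'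

theorem R_row (c b : Fin 16) (hb : b ≠ 0) (z : ZMod 4) :
    (univ.filter fun d => R c b d = z).card = 4 := by
  unfold R
  by_cases h : c = 0
  · simp only [h, if_true]; exact G_row b hb z
  · simp only [h, if_false]; exact Q_row b hb z

theorem R_row0 (c d : Fin 16) : R c 0 d = 0 := by
  unfold R
  rw [G_row0, Q_row0, ite_self]

theorem R_col0 (c b : Fin 16) : R c b 0 = 0 := by
  unfold R
  rw [G_col0, Q_col0, ite_self]

/-- the exponents of the matrix of order 256 -/
def E (x y : Fin 16 × Fin 16) : ZMod 4 := G x.1 y.1 + R y.1 x.2 y.2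

theorem E_row0 (y : Fin 16 × Fin 16) : E (0, 0) y = 0 := by
  simp [E, G_row0, R_row0]

theorem E_col0 (x : Fin 16 × Fin 16) : E x (0, 0) = 0 := by
  simp [E, G_col0, R_col0]

theorem card_prod_filter (p : Fin 16 × Fin 16 → Prop) [DecidablePred p] :
    (univ.filter p).card = ∑ c, (univ.filter fun d => p (c, d)).card := by
  simp only [Finset.card_filter]
  rw [Fintype.sum_prod_type]

theorem card_prod_filter' (p : Fin 16 × Fin 16 → Prop) [DecidablePred p] :
    (univ.filter p).card = ∑ d, (univ.filter fun c => p (c, d)).card := by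
  simp only [Finset.card_filter]
  rw [Fintype.sum_prod_type_right]

theorem E_apply (a b c d : Fin 16) : E (a, b) (c, d) = G a c + R c b d := rfl

theorem card_congr' {ι : Type} [Fintype ι] {p q : ι → Prop} [DecidablePred p] [DecidablePred q]
    (h : ∀ i, p i ↔ q i) : (univ.filter p).card = (univ.filter q).card := by
  congr 1
  ext i
  simp [h i]

theorem card_row (x : Fin 16 × Fin 16) (hx : x ≠ (0, 0)) (z : ZMod 4) :
    (univ.filter fun y => E x y = z).card = 64 := by
  obtain ⟨a, b⟩ := x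
  rw [card_prod_filter]
  by_cases hb : b = 0
  · subst hb
    have ha : a ≠ 0 := fun h => hx (by rw [h])
    have h1 : ∀ c : Fin 16, (univ.filter fun d : Fin 16 => E (a, 0) (c, d) = z).card =
        16 * (if G a c = z then 1 else 0) := by
      intro c
      have h2 : ∀ d, E (a, 0) (c, d) = G a c := by
        intro d; rw [E_apply, R_row0, add_zero]
      by_cases h : G a c = z
      · simp [h2, h]
      · simp [h2, h]
    rw [Finset.sum_congr rfl fun c _ => h1 c]
    rw [← Finset.mul_sum, ← Finset.card_filter, G_row a ha z]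
    norm_num
  · have h1 : ∀ c : Fin 16, (univ.filter fun d : Fin 16 => E (a, b) (c, d) = z).card = 4 := by
      intro c
      refine Eq.trans (card_congr' fun d => ?_) (R_row c b hb (z - G a c))
      rw [E_apply]
      constructor
      · intro h; rw [← h]; ring
      · intro h; rw [h]; ring
    rw [Finset.sum_congr rfl fun c _ => h1 c]
    simp

theorem card_col (y : Fin 16 × Fin 16) (hy : y ≠ (0, 0)) (z : ZMod 4) :
    (univ.filter fun x => E x y = z).card = 64 := by
  obtain ⟨c, d⟩ := y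
  by_cases hc : c = 0
  · subst hc
    have hd : d ≠ 0 := fun h => hy (by rw [h])
    rw [card_prod_filter]
    have h1 : ∀ a : Fin 16, (univ.filter fun b : Fin 16 => E (a, b) (0, d) = z).card = 4 := by
      intro a
      refine Eq.trans (card_congr' fun b => ?_) (G_col d hd z)
      rw [E_apply, G_col0, zero_add, R, if_pos rfl]
    rw [Finset.sum_congr rfl fun c _ => h1 c]
    simp
  · rw [card_prod_filter']
    have h1 : ∀ b : Fin 16, (univ.filter fun a : Fin 16 => E (a, b) (c, d) = z).card = 4 := by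
      intro b
      refine Eq.trans (card_congr' fun a => ?_) (G_col c hc (z - R c b d))
      rw [E_apply]
      constructor
      · intro h; rw [← h]; ring
      · intro h; rw [h]; ring
    rw [Finset.sum_congr rfl fun c _ => h1 c]
    simp

theorem sum_E (x x' : Fin 16 × Fin 16) :
    ∑ y, chi (E x y - E x' y) = if x = x' then 256 else 0 := by
  obtain ⟨a, b⟩ := x
  obtain ⟨a', b'⟩ := x'
  rw [Fintype.sum_prod_type]
  have h1 : ∀ c : Fin 16, ∑ d : Fin 16, chi (E (a, b) (c, d) - E (a', b') (c, d)) =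
      chi (G a c - G a' c) * (if b = b' then 16 else 0) := by
    intro c
    rw [← inner_R c b b', Finset.mul_sum]
    apply Finset.sum_congr rfl
    intro d _
    rw [← chi_add]
    congr 1
    simp only [E]
    ring
  simp only [h1]
  rw [← Finset.sum_mul, inner_G]
  by_cases h2 : a = a' <;> by_cases h3 : b = b' <;> simp [h2, h3]
  norm_num

theorem card_bad (z : ZMod 4) (q : ℕ) (hq : (univ.filter fun d => Q 1 d - Q 4 d = z).card = q) :
    (univ.filter fun y => E (0, 1) y - E (0, 4) y = z).card = 4 + 15 * q := by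
  rw [card_prod_filter]
  have h1 : ∀ c : Fin 16, (univ.filter fun d : Fin 16 =>
      E (0, 1) (c, d) - E (0, 4) (c, d) = z).card = if c = 0 then 4 else q := by
    intro c
    by_cases hc : c = 0
    · subst hc
      rw [if_pos rfl]
      refine Eq.trans (card_congr' fun d => ?_) (G_bad z)
      rw [E_apply, E_apply, add_sub_add_left_eq_sub, R, R, if_pos rfl, if_pos rfl]
    · rw [if_neg hc]
      refine Eq.trans (card_congr' fun d => ?_) hq
      rw [E_apply, E_apply, add_sub_add_left_eq_sub, R, R, if_neg hc, if_neg hc]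
  rw [Finset.sum_congr rfl fun c _ => h1 c]
  rw [Fin.sum_univ_succ]
  simp only [if_true, Fin.succ_ne_zero, if_false, Finset.sum_const, Finset.card_univ,
    Fintype.card_fin, smul_eq_mul]

/-- the matrix of order 256 -/
noncomputable def H : Matrix (Fin (16 * 16)) (Fin (16 * 16)) ℂ := fun i j =>
  chi (E (finProdFinEquiv.symm i) (finProdFinEquiv.symm j))

theorem symm_zero : (finProdFinEquiv.symm (0 : Fin (16 * 16)) : Fin 16 × Fin 16) = (0, 0) := by
  decide

theorem symm_eq_zero_iff (i : Fin (16 * 16)) :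
    (finProdFinEquiv.symm i : Fin 16 × Fin 16) = (0, 0) ↔ i = 0 := by
  rw [← symm_zero]
  exact (finProdFinEquiv.symm).injective.eq_iff

theorem ncard_eq (f : Fin 16 × Fin 16 → ZMod 4) (z : ZMod 4) :
    Set.ncard {j : Fin (16 * 16) | chi (f (finProdFinEquiv.symm j)) = chi z} =
      (univ.filter fun y => f y = z).card := by
  have h1 : {j : Fin (16 * 16) | chi (f (finProdFinEquiv.symm j)) = chi z} =
      finProdFinEquiv '' {y : Fin 16 × Fin 16 | f y = z} := by
    ext j
    simp only [Set.mem_ofPred_eq, Set.mem_image, chi_inj]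
    constructor
    · intro h
      exact ⟨_, h, by simp⟩
    · rintro ⟨y, hy, rfl⟩
      simpa using hy
  rw [h1, Set.ncard_image_of_injective _ finProdFinEquiv.injective]
  rw [← Set.ncard_coe_finset]
  congr 1
  ext y
  simp

theorem H_butson : IsButson 4 H := by
  constructor
  · intro i j
    exact chi_pow _
  · ext i i'
    rw [Matrix.mul_apply]
    have h1 : ∀ j, H i j * Hᴴ j i' = chi (E (finProdFinEquiv.symm i) (finProdFinEquiv.symm j) -
        E (finProdFinEquiv.symm i') (finProdFinEquiv.symm j)) := by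
      intro j
      rw [Matrix.conjTranspose_apply, sub_eq_add_neg, chi_add, ← star_chi]
      rfl
    simp only [h1]
    rw [Equiv.sum_comp finProdFinEquiv.symm (fun y => chi (E (finProdFinEquiv.symm i) y -
      E (finProdFinEquiv.symm i') y)), sum_E]
    rw [Matrix.smul_apply, Matrix.one_apply]
    by_cases h : i = i'
    · subst h; norm_num
    · have : ¬ (finProdFinEquiv.symm i : Fin 16 × Fin 16) = finProdFinEquiv.symm i' :=
        fun h' => h (finProdFinEquiv.symm.injective h')
      simp [h]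

theorem H_normalised : Normalised H := by
  constructor
  · intro j
    rw [H, symm_zero, E_row0, chi_zero]
  · intro i
    rw [H, symm_zero, E_col0, chi_zero]

theorem H_row : RowBalanced 4 H := by
  intro i hi z w hz hw
  obtain ⟨a, rfl⟩ := chi_surj hz
  obtain ⟨b, rfl⟩ := chi_surj hw
  have hx : (finProdFinEquiv.symm i : Fin 16 × Fin 16) ≠ (0, 0) :=
    fun h => hi ((symm_eq_zero_iff i).1 h)
  have h1 := ncard_eq (fun y => E (finProdFinEquiv.symm i) y) a
  have h2 := ncard_eq (fun y => E (finProdFinEquiv.symm i) y) b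
  rw [card_row _ hx] at h1 h2
  exact h1.trans h2.symm

theorem H_col : ColBalanced 4 H := by
  intro j hj z w hz hw
  obtain ⟨a, rfl⟩ := chi_surj hz
  obtain ⟨b, rfl⟩ := chi_surj hw
  have hx : (finProdFinEquiv.symm j : Fin 16 × Fin 16) ≠ (0, 0) :=
    fun h => hj ((symm_eq_zero_iff j).1 h)
  have h1 := ncard_eq (fun y => E y (finProdFinEquiv.symm j)) a
  have h2 := ncard_eq (fun y => E y (finProdFinEquiv.symm j)) b
  rw [card_col _ hx] at h1 h2
  exact h1.trans h2.symm

/-- the matrix normalised with respect to another row -/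
noncomputable def K : Matrix (Fin (16 * 16)) (Fin (16 * 16)) ℂ := fun i j =>
  chi (-(E (0, 4) (finProdFinEquiv.symm j))) *
    H (Equiv.swap 0 (finProdFinEquiv (0, 4)) i) j

theorem K_equiv : Equivalent 4 H K := by
  refine ⟨Equiv.swap 0 (finProdFinEquiv (0, 4)), 1, fun _ => 1,
    fun j => chi (-(E (0, 4) (finProdFinEquiv.symm j))), fun _ => one_pow _,
    fun j => chi_pow _, fun i j => ?_⟩
  simp [K]

theorem K_normalised : Normalised K := by
  constructor
  · intro j
    rw [K, Equiv.swap_apply_left, H, Equiv.symm_apply_apply, ← chi_add, neg_add_cancel, chi_zero]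
  · intro i
    rw [K, H, symm_zero, E_col0, E_col0, neg_zero, ← chi_add, add_zero, chi_zero]

theorem K_not_row : ¬ RowBalanced 4 K := by
  intro h
  have hne1 : (finProdFinEquiv ((0, 1) : Fin 16 × Fin 16) : Fin (16 * 16)) ≠ 0 := by decide
  have hne2 : (finProdFinEquiv ((0, 1) : Fin 16 × Fin 16) : Fin (16 * 16)) ≠
      finProdFinEquiv (0, 4) := by decide
  have h1 := h (finProdFinEquiv (0, 1)) hne1 (chi 0) (chi 1) (chi_pow _) (chi_pow _)
  have hK : ∀ j, K (finProdFinEquiv (0, 1)) j =
      chi (E (0, 1) (finProdFinEquiv.symm j) - E (0, 4) (finProdFinEquiv.symm j)) := by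
    intro j
    rw [K, Equiv.swap_apply_of_ne_of_ne hne1 hne2, H, Equiv.symm_apply_apply, ← chi_add]
    congr 1
    ring
  simp only [hK] at h1
  rw [ncard_eq (fun y => E (0, 1) y - E (0, 4) y) 0, ncard_eq (fun y => E (0, 1) y - E (0, 4) y) 1,
    card_bad 0 6 Q_bad0, card_bad 1 2 Q_bad1] at h1
  omega

end Pool.Agent.Q3.Butson
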